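import Pool.Agent.W_7d29a1_SP.DefsSP2
import Pool.Agent.W_7d29a1_SD.DefsSD

/-!
Theorem TG: in two transversal dimensions the whole polymer is superdiffusive by more than every
power of the logarithm, in almost every direction. Definitions and frozen statements of the leaves.
Paper proof: `/team-store/h75_TG.md`.
-/

namespace Pool.Agent.W_7d29a1_TG

open MeasureTheory ProbabilityTheory Filter Topology Pool.Agent.W_MP_7d29a1_pr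
  Pool.Agent.W_7d29a1_h46 Pool.Agent.W_7d29a1_h46u Pool.Agent.W_7d29a1_D2.B35
  Pool.Agent.W_7d29a1_Q29 Pool.Agent.W_7d29a1_R34 Pool.Agent.W_7d29a1_SD
  Pool.Agent.W_7d29a1_SP

/-- The mean of the free energy of length `n` given the rows `≤ p`. -/
noncomputable def Wm {d : ℕ} (ρ : Measure ℝ) (β : ℝ) (h : Vec d) (n p : ℕ) (η : Env d) : ℝ :=
  cE ρ (Pa d p) (fun η => X β h η n) η

/-- The mean variance of the free energy of length `n` given the rows `≤ p`. -/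
noncomputable def Rs {d : ℕ} (ρ : Measure ℝ) (β : ℝ) (h : Vec d) (n p : ℕ) : ℝ :=
  ∫ η, (X β h η n - Wm ρ β h n p η) ^ 2 ∂(law d ρ)

/-- The polymer with tilt `h` stays in tubes of radius `kap √n` around the line `t v`, with tails of
the sixth moment. -/
def Tt {d : ℕ} (ρ : Measure ℝ) (β : ℝ) (h v : Vec d) (Q c : ℝ) : Prop :=
  ∀ (n : ℕ) (R : ℝ), 1 ≤ n → 1 ≤ R → Tb ρ β h v (R * kap Q c n) n ≤ 1 / R ^ 6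

/-- The data of a point (`d = 2`). -/
structure PtT (ρ : Measure ℝ) (β : ℝ) (h : Vec 2) (g Q c R : ℝ) : Prop where
  gap : lam ρ β h + g ≤ Real.log (Phi h) + Real.log (∫ t, Real.exp (β * t) ∂ρ)
  rs : ∀ n p : ℕ, 1 ≤ p → p ≤ n → Rs ρ β h n p ≤ (kap Q c n * ((n : ℝ) / p)) ^ 4
  win : ∀ n t : ℕ, 1 ≤ n → t ≤ n → Win ρ β h n t (kap Q c n ^ 2 * n) (1 / 8)
  rate : ∀ n : ℕ, En ρ β h n ≤ R * (n : ℝ) ^ (49 / 100 : ℝ)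
  rateF : ∀ n : ℕ, Fn ρ β h n ≤ R * (n : ℝ) ^ (49 / 100 : ℝ)

section Gen

variable (d : ℕ) (ρ : Measure ℝ) (β : ℝ)

/-- NPR: Newman-Piza, backward and forward, for the rows `> p` only. -/
def NpR : Prop := ∃ C : ℝ, 0 ≤ C ∧ ∀ (h : Vec d) (L p : ℕ), p ≤ L →
  ∑ t ∈ Finset.Ioc p L, St ρ β h L t ≤ C * Rs ρ β h L p ∧
  ∑ t ∈ Finset.Ico p L,
    ∫ η, ∑ y ∈ boxF d L, (cE ρ (Pa d t) (Qt β h L t y) η) ^ 2 ∂(law d ρ) ≤ C * Rs ρ β h L p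

/-- CNTW: counting in time of the beginnings of length `p` which are lucky for the polymer of
length `m` (`CntP` is the case `p = m`). -/
def CntW : Prop := ∀ c₀ : ℝ, 0 < c₀ → ∃ C : ℝ, 1 ≤ C ∧ ∀ h : Vec d, Loc1 ρ β h c₀ →
  ∀ (m p T : ℕ) (x q Φ : ℝ), 1 ≤ p → p ≤ m → 0 < q →
    q ≤ (law d ρ).real {η | A ρ β h m + x ≤ Wm ρ β h m p η} → C * p / q ≤ T →
    En ρ β h m ≤ Φ → (∀ k : ℕ, k ≤ T → En ρ β h k ≤ Φ ∧ Fn ρ β h k ≤ Φ) → x ≤ C * (Φ + 1)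

/-- LOWF (`GC ρ`): the lower side has a mass of order one. -/
def LowF : Prop := ∃ q : ℝ, 0 < q ∧ ∀ (h : Vec d) (m : ℕ), 0 < Fn ρ β h m →
  q ≤ (law d ρ).real {η | X β h η m ≤ A ρ β h m + Fn ρ β h m / 16}

/-- UPPF: the two tails at some level. -/
def UppF : Prop := ∀ (h : Vec d) (m : ℕ), 0 < Fn ρ β h m →
  (∃ x : ℝ, Fn ρ β h m / 8 ≤ x ∧ 1 / 20 * (Fn ρ β h m / x) ^ (3 / 2 : ℝ) ≤
    (law d ρ).real {η | A ρ β h m + x < X β h η m}) ∧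
  (∃ x : ℝ, Fn ρ β h m / 8 ≤ x ∧ 1 / 20 * (Fn ρ β h m / x) ^ (3 / 2 : ℝ) ≤
    (law d ρ).real {η | X β h η m ≤ A ρ β h m - x})

/-- CA: the random fluctuation is small when it dominates, at a scale where the growth is at most
the square root. -/
def CaA : Prop := ∀ c₀ θ : ℝ, 0 < c₀ → 0 < θ → ∃ K : ℝ, 1 ≤ K ∧ ∀ h : Vec d, Loc1 ρ β h c₀ →
  ∀ (j : ℕ) (B S : ℝ), K ≤ j → 1 ≤ S → 1 ≤ Fn ρ β h j → θ * B ≤ Fn ρ β h j →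
    (∀ T k : ℕ, j ≤ T → k ≤ T → En ρ β h k ≤ B * Real.sqrt ((T : ℝ) / j) ∧
      Fn ρ β h k ≤ B * Real.sqrt ((T : ℝ) / j)) →
    (∀ p : ℕ, 1 ≤ p → p ≤ j → Rs ρ β h j p ≤ (S * ((j : ℝ) / p)) ^ 4) →
      Fn ρ β h j ≤ K * S ^ 2

/-- CB: the nonrandom fluctuation is small when it dominates and is paid by luck. -/
def CaB : Prop := ∀ c₀ : ℝ, 0 < c₀ → ∃ K : ℝ, 1 ≤ K ∧ ∀ h : Vec d, Loc1 ρ β h c₀ →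
  ∀ (N m : ℕ) (e S q : ℝ), 1 ≤ m → m ≤ N → N ≤ 1000 * m → 1 ≤ e → 1 ≤ S → 0 < q → q ≤ 1 / 2 →
    K * (1 / q) ^ K ≤ N → (∀ k : ℕ, k ≤ N → En ρ β h k ≤ 2 * e ∧ Fn ρ β h k ≤ 2 * e) →
    Fn ρ β h m ≤ e / 1280 → q ≤ (law d ρ).real {η | A ρ β h m + e / 80 < X β h η m} →
    (∀ p : ℕ, 1 ≤ p → p ≤ m → Rs ρ β h m p ≤ (S * ((m : ℝ) / p)) ^ 4) →
      e ≤ K * S ^ 2 * (1 / q) ^ K

/-- SUB: the velocity is a slope. -/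
def SubT : Prop := ∀ (h v : Vec d) (Q c : ℝ), 1 ≤ Q → 0 < c → c ≤ 1 → Tt ρ β h v Q c →
  ∀ k : Vec d, lam ρ β h + inner ℝ v k ≤ lam ρ β (h + k)

/-- RATE: the fluctuations are at most `R n ^ 0.49`. -/
def RateT : Prop := ∀ (h v : Vec d) (Q c : ℝ), 1 ≤ Q → 0 < c → c ≤ 1 → Tt ρ β h v Q c →
  ∃ R : ℝ, ∀ n : ℕ, En ρ β h n ≤ R * (n : ℝ) ^ (49 / 100 : ℝ) ∧
    Fn ρ β h n ≤ R * (n : ℝ) ^ (49 / 100 : ℝ)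

/-- RST: two close directions bound the variance given the rows `≤ p`. -/
def RsT : Prop := ∀ (h v : Vec d) (C δ Q c : ℝ), 0 < C → 0 < δ → 1 ≤ Q → 0 < c → c ≤ 1 →
  Tt ρ β h v Q c → (∀ s : ℝ, 0 < s → s ≤ δ → ∃ h' v' : Vec d, Tt ρ β h' v' Q c ∧
    s / 2 ≤ ‖v' - v‖ ∧ ‖v' - v‖ ≤ s ∧ ‖h' - h‖ ≤ C * s) →
  ∃ Q' : ℝ, 1 ≤ Q' ∧ ∀ n p : ℕ, 1 ≤ p → p ≤ n →
    Rs ρ β h n p ≤ (kap Q' c n * ((n : ℝ) / p)) ^ 4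

end Gen

section Two

variable (ρ : Measure ℝ) (β : ℝ)

/-- WIN: the windows. -/
def WinT : Prop := ∀ (h v : Vec 2) (Q c : ℝ), 1 ≤ Q → 0 < c → c ≤ 1 → Tt ρ β h v Q c →
  ∀ n t : ℕ, 1 ≤ n → t ≤ n → Win ρ β h n t (kap (9 * Q) c n ^ 2 * n) (1 / 8)

/-- LK: a large gap is paid by a lucky future. -/
def LkT : Prop := ∀ g : ℝ, 0 < g → ∃ c₂ : ℝ, 0 < c₂ ∧ c₂ ≤ 1 / 2 ∧
  ∀ (h : Vec 2) (Q c R : ℝ), 1 ≤ Q → 0 < c → c ≤ 1 → PtT ρ β h g Q c R →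
    ∃ N₀ : ℕ, 1000 ≤ N₀ ∧ ∀ (N L : ℕ) (e : ℝ) (S : Finset ℕ), N₀ ≤ N → 240 ≤ e →
      (∀ k : ℕ, k ≤ 2 * N → Fn ρ β h k ≤ e / 1280) → (N : ℝ) / 200 ≤ S.card →
      (∀ t ∈ S, t ≤ L ∧ (N : ℝ) / 1000 ≤ t ∧ t ≤ N ∧ (N : ℝ) / 1000 ≤ (L - t : ℕ) ∧ L - t ≤ N ∧
        e / 20 ≤ En ρ β h t + En ρ β h (L - t) - En ρ β h L) →
      ∃ m : ℕ, 1 ≤ m ∧ m ≤ N ∧ N ≤ 1000 * m ∧ c₂ / kap Q c (2 * N) ^ 8 ≤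
        (law 2 ρ).real {η | A ρ β h m + e / 80 < X β h η m}

/-- UNB: the nonrandom fluctuation is unbounded. -/
def UnbT : Prop := ∀ g : ℝ, 0 < g → ∀ (h : Vec 2) (Q c R : ℝ), 1 ≤ Q → 0 < c → c ≤ 1 →
  PtT ρ β h g Q c R → ∀ B : ℝ, ∃ n₀ : ℕ, ∀ n : ℕ, n₀ ≤ n → ∀ Φ : ℝ,
    (∀ i : ℕ, i ≤ n → En ρ β h i ≤ Φ) → B ≤ Φ

/-- UP: the upper bound of the fluctuations. -/
def UpT : Prop := ∀ g : ℝ, 0 < g → ∃ C : ℝ, 1 ≤ C ∧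
  ∀ (h : Vec 2) (Q c R : ℝ), 1 ≤ Q → 0 < c → c ≤ 1 → PtT ρ β h g Q c R →
    ∃ n₁ : ℕ, ∀ n k : ℕ, n₁ ≤ n → k ≤ n →
      En ρ β h k ≤ kap Q c n ^ C ∧ Fn ρ β h k ≤ kap Q c n ^ C

/-- STEP: doubling of the fluctuation (the literal of `StepP` with `PtT` for `Pt`). -/
def StepT : Prop := ∀ g : ℝ, 0 < g → ∃ Ca Cb : ℝ, 1 ≤ Ca ∧ 1 ≤ Cb ∧
  ∀ (h : Vec 2) (Q c R : ℝ), 1 ≤ Q → 0 < c → c ≤ 1 → PtT ρ β h g Q c R →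
    ∃ Cs : ℝ, ∀ (n k : ℕ) (Ψ : ℝ), 1 ≤ n → k ≤ n → Cs ≤ Ψ →
      (En ρ β h k = Ψ ∨ Fn ρ β h k = Ψ) → ∃ (T j : ℕ), n ≤ T ∧ j ≤ T ∧
        (2 * Ψ ≤ En ρ β h j ∨ 2 * Ψ ≤ Fn ρ β h j) ∧
        ∀ Φ : ℝ, (∀ i : ℕ, i ≤ T → En ρ β h i ≤ Φ ∧ Fn ρ β h i ≤ Φ) →
          (T : ℝ) ≤ Ca * n * (kap Q c (128 * T) * Φ) ^ Cb

/-- POINT: the main argument. -/
def PointT : Prop := ∀ g : ℝ, 0 < g → ∃ c : ℝ, 0 < c ∧ c ≤ 1 ∧ ∀ (h : Vec 2) (Q R : ℝ),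
  ¬ PtT ρ β h g Q c R

/-- The theorem (`d = 2`). -/
def MainT : Prop := ∀ᵐ v : Vec 2, ∀ h : Vec 2, VSD ρ β h → ∃ c : ℝ, 0 < c ∧ ∃ᶠ n : ℕ in atTop,
  ∃ R : ℝ, 1 ≤ R ∧ 1 / R ^ 6 < Tb ρ β h v (R * Real.exp (c * Real.sqrt (Real.log n))) n

end Two

end Pool.Agent.W_7d29a1_TG
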