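import Pool.Agent.W_7d29a1_TG.DefsTG
import Pool.Agent.W_7d29a1_SP.Rate74
import Pool.Agent.W_7d29a1_VT.Slab46

/-!
The rates of the nonrandom and of the random fluctuation at a tilt where the polymer stays in a tube.
-/

namespace Pool.Agent.W_7d29a1_TG

open MeasureTheory ProbabilityTheory Filter Topology Pool.Agent.W_MP_7d29a1_pr
  Pool.Agent.W_7d29a1_h46 Pool.Agent.W_7d29a1_h46u Pool.Agent.W_7d29a1_D2.B35
  Pool.Agent.W_7d29a1_Q29 Pool.Agent.W_7d29a1_R34 Pool.Agent.W_7d29a1_SD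
  Pool.Agent.W_7d29a1_SP Pool.Agent.W_7d29a1_V Pool.Agent.W_7d29a1_VT

namespace RateT74

variable {d : ℕ} {ρ : Measure ℝ} [IsProbabilityMeasure ρ]

/-- The rates from the tube property in probability. -/
lemma rate_tb (hd : 0 < d) (hρ : EM ρ) {β : ℝ} {h v : Vec d} (hT : TbP ρ β h v (9 / 10)) :
    ∃ R : ℝ, ∀ n : ℕ, En ρ β h n ≤ R * (n : ℝ) ^ (49 / 100 : ℝ) ∧
      Fn ρ β h n ≤ R * (n : ℝ) ^ (49 / 100 : ℝ) := by
  have hS := spaceV46 hd hρ β ‖h‖
  have hV := varAll10 hd hρ β h v (by norm_num) (by norm_num) hT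
  obtain ⟨C₁, hC₁, H₁⟩ := Rate74.all_of_ev (E := fun n : ℕ => En ρ β h n)
    (by simp [En, Rate74.A_zero74]) (x := 49 / 100) (by norm_num) (gap74 hd hρ (by norm_num)
    (medT hd hρ hS (by norm_num) (by norm_num) hT) (addT36 hd hρ hS (by norm_num) (by norm_num) hT)
    hV (by norm_num) (by norm_num))
  have hF0 : Fn ρ β h 0 = 0 := by
    have h1 : ∀ η : Env d, X β h η 0 = 0 := by
      intro η
      rw [X, Z_zero, Real.log_one]
    unfold Fn
    simp only [h1, Rate74.A_zero74, sub_zero, abs_zero, integral_zero]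
  have hFev : ∃ n₀ : ℕ, ∀ n : ℕ, n₀ ≤ n → Fn ρ β h n ≤ (n : ℝ) ^ (49 / 100 : ℝ) := by
    obtain ⟨n₀, hn₀⟩ := hV (49 / 100) (by norm_num)
    refine ⟨n₀, fun n hn => ?_⟩
    obtain ⟨C, -, hC⟩ := momU (d := d) hd hρ β 2
    rcases Nat.eq_zero_or_pos n with h0 | h0
    · subst h0
      rw [hF0]
      exact Real.rpow_nonneg (Nat.cast_nonneg _) _
    · obtain ⟨hint, -⟩ := hC h n h0
      have h1 := hn₀ n hn
      have hn0 : (0 : ℝ) < n := by exact_mod_cast h0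
      have hr0 : 0 < (n : ℝ) ^ (49 / 100 : ℝ) := Real.rpow_pos_of_pos hn0 _
      have e1 : (n : ℝ) ^ (2 * (49 / 100) : ℝ) = (n : ℝ) ^ (49 / 100 : ℝ) * (n : ℝ) ^ (49 / 100 : ℝ) := by
        rw [← Real.rpow_add hn0]
        norm_num
      rw [e1] at h1
      set r : ℝ := (n : ℝ) ^ (49 / 100 : ℝ) with hr
      have h2 : Fn ρ β h n ≤ ∫ η, (|X β h η n - A ρ β h n| ^ 2 / (2 * r) + r / 2) ∂(law d ρ) := by
        unfold Fn
        refine integral_mono_of_nonneg (Filter.Eventually.of_forall fun η => abs_nonneg _)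
          ((hint.div_const _).add (integrable_const _)) (Filter.Eventually.of_forall fun η => ?_)
        have h3 : |X β h η n - A ρ β h n| * (2 * r) ≤ |X β h η n - A ρ β h n| ^ 2 + r ^ 2 := by
          nlinarith [sq_nonneg (|X β h η n - A ρ β h n| - r)]
        have h4 : |X β h η n - A ρ β h n| ^ 2 / (2 * r) + r / 2 =
            (|X β h η n - A ρ β h n| ^ 2 + r ^ 2) / (2 * r) := by
          field_simp
        simp only
        rw [h4, le_div_iff₀ (by positivity)]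
        exact h3
      rw [integral_add (hint.div_const _) (integrable_const _), integral_div, integral_const] at h2
      simp only [smul_eq_mul, probReal_univ, one_mul] at h2
      have h5 : (∫ η, |X β h η n - A ρ β h n| ^ 2 ∂(law d ρ)) / (2 * r) ≤ r / 2 := by
        rw [div_le_iff₀ (by positivity)]
        linarith
      linarith
  obtain ⟨C₂, hC₂, H₂⟩ := Rate74.all_of_ev (E := fun n : ℕ => Fn ρ β h n) hF0
    (x := 49 / 100) (by norm_num) hFev
  refine ⟨C₁ + C₂, fun n => ?_⟩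
  have h1 := H₁ n
  have h2 := H₂ n
  have h3 : 0 ≤ (n : ℝ) ^ (49 / 100 : ℝ) := Real.rpow_nonneg (Nat.cast_nonneg _) _
  constructor
  · nlinarith
  · nlinarith

/-- `exp (c √(log n)) ≤ n ^ (1 / 4)` for all large `n`. -/
lemma exp_le (c : ℝ) : ∀ᶠ n : ℕ in atTop,
    Real.exp (c * Real.sqrt (Real.log n)) ≤ (n : ℝ) ^ (1 / 4 : ℝ) := by
  have h1 : Tendsto (fun n : ℕ => Real.sqrt (Real.log n)) atTop atTop :=
    (Real.tendsto_sqrt_atTop.comp Real.tendsto_log_atTop).comp tendsto_natCast_atTop_atTop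
  filter_upwards [h1.eventually_ge_atTop (4 * |c|), eventually_ge_atTop 1] with n hn hn1
  have hn0 : (0 : ℝ) < n := by exact_mod_cast hn1
  have hl : 0 ≤ Real.log n := Real.log_nonneg (by exact_mod_cast hn1)
  have h2 : c * Real.sqrt (Real.log n) ≤ Real.log n * (1 / 4) := by
    have h3 : 4 * |c| * Real.sqrt (Real.log n) ≤ Real.sqrt (Real.log n) * Real.sqrt (Real.log n) :=
      mul_le_mul_of_nonneg_right hn (Real.sqrt_nonneg _)
    rw [Real.mul_self_sqrt hl] at h3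
    have h4 : c * Real.sqrt (Real.log n) ≤ |c| * Real.sqrt (Real.log n) :=
      mul_le_mul_of_nonneg_right (le_abs_self c) (Real.sqrt_nonneg _)
    linarith
  rw [Real.rpow_def_of_pos hn0]
  exact Real.exp_le_exp.2 h2

/-- The tube property from the hypothesis `Tt`. -/
lemma tbP_of_Tt {β : ℝ} {h v : Vec d} {Q c : ℝ} (hQ : 1 ≤ Q) (H : Tt ρ β h v Q c) :
    TbP ρ β h v (9 / 10) := by
  intro δ hδ
  have ht : Tendsto (fun n : ℕ => (n : ℝ) ^ (3 / 20 : ℝ)) atTop atTop :=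
    (tendsto_rpow_atTop (by norm_num)).comp tendsto_natCast_atTop_atTop
  have hev := ((exp_le c).and (ht.eventually_ge_atTop (Q * max 1 (2 / δ)))).and
    (eventually_ge_atTop 1)
  obtain ⟨N, hN⟩ := eventually_atTop.1 hev
  refine ⟨N, fun n hn => ?_⟩
  obtain ⟨⟨h1, h2⟩, h4⟩ := hN n hn
  have hn0 : (0 : ℝ) < n := by exact_mod_cast h4
  have hk0 : 0 < kap Q c n := by
    unfold kap
    have := Real.exp_pos (c * Real.sqrt (Real.log n))
    nlinarith
  have hk1 : kap Q c n ≤ Q * (n : ℝ) ^ (1 / 4 : ℝ) := by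
    unfold kap
    exact mul_le_mul_of_nonneg_left h1 (by linarith)
  obtain ⟨R, hR⟩ : ∃ R : ℝ, R = (n : ℝ) ^ (2 / 5 : ℝ) / kap Q c n := ⟨_, rfl⟩
  have hRm : max 1 (2 / δ) ≤ R := by
    rw [hR, le_div_iff₀ hk0]
    have hm0 : 0 ≤ max 1 (2 / δ) := le_trans zero_le_one (le_max_left _ _)
    calc max 1 (2 / δ) * kap Q c n ≤ max 1 (2 / δ) * (Q * (n : ℝ) ^ (1 / 4 : ℝ)) :=
          mul_le_mul_of_nonneg_left hk1 hm0
      _ = (Q * max 1 (2 / δ)) * (n : ℝ) ^ (1 / 4 : ℝ) := by ring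
      _ ≤ (n : ℝ) ^ (3 / 20 : ℝ) * (n : ℝ) ^ (1 / 4 : ℝ) :=
          mul_le_mul_of_nonneg_right h2 (Real.rpow_nonneg hn0.le _)
      _ = (n : ℝ) ^ (2 / 5 : ℝ) := by
          rw [← Real.rpow_add hn0]
          norm_num
  have hR1 : 1 ≤ R := (le_max_left _ _).trans hRm
  have hR2 : 2 / δ ≤ R := (le_max_right _ _).trans hRm
  have hR6 : R ≤ R ^ 6 := by
    calc R = R ^ 1 := (pow_one R).symm
      _ ≤ R ^ 6 := pow_le_pow_right₀ hR1 (by norm_num)
  have e1 := H n R h4 hR1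
  have e2 : R * kap Q c n * Real.sqrt n = (n : ℝ) ^ (9 / 10 : ℝ) := by
    rw [hR, div_mul_cancel₀ _ hk0.ne', Real.sqrt_eq_rpow, ← Real.rpow_add hn0]
    norm_num
  unfold Tb at e1
  rw [e2] at e1
  have e3 : 1 / R ^ 6 ≤ δ / 2 := by
    have h5 : 2 / δ ≤ R ^ 6 := hR2.trans hR6
    rw [div_le_iff₀ hδ] at h5
    rw [div_le_iff₀ (by positivity)]
    linarith
  have hint : Integrable (fun η : Env d => 1 - PolT β h η (tube d n v ((n : ℝ) ^ (9 / 10 : ℝ))))
      (law d ρ) := Slab46.int_PolT β h _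
  have hnn : ∀ η : Env d, 0 ≤ 1 - PolT β h η (tube d n v ((n : ℝ) ^ (9 / 10 : ℝ))) := fun η => by
    have := PolT_le_one β h η (tube d n v ((n : ℝ) ^ (9 / 10 : ℝ)))
    linarith
  have hmk := mul_meas_ge_le_integral_of_nonneg (μ := law d ρ)
    (f := fun η : Env d => 1 - PolT β h η (tube d n v ((n : ℝ) ^ (9 / 10 : ℝ))))
    (Filter.Eventually.of_forall hnn) hint (1 / 2)
  have hsub : (law d ρ).real {η | PolT β h η (tube d n v ((n : ℝ) ^ (9 / 10 : ℝ))) < 1 / 2} ≤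
      (law d ρ).real {η | 1 / 2 ≤ 1 - PolT β h η (tube d n v ((n : ℝ) ^ (9 / 10 : ℝ)))} := by
    refine measureReal_mono fun η hη => ?_
    have hη' : PolT β h η (tube d n v ((n : ℝ) ^ (9 / 10 : ℝ))) < 1 / 2 := hη
    show 1 / 2 ≤ 1 - PolT β h η (tube d n v ((n : ℝ) ^ (9 / 10 : ℝ)))
    linarith
  linarith

end RateT74

open RateT74 in
/-- **RATE.** -/
theorem rateT74 {d : ℕ} {ρ : Measure ℝ} [IsProbabilityMeasure ρ] (hd : 0 < d) (hρ : EM ρ)
    (β : ℝ) : RateT d ρ β := by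
  intro h v Q c hQ _ _ H
  exact rate_tb hd hρ (tbP_of_Tt hQ H)

end Pool.Agent.W_7d29a1_TG
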